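import Mathlib

set_option autoImplicit false

/-!
# Compatible algebras with straightening laws on `J(P)` for `P` a disjoint union of chains
-/

namespace Pool.Agent.Results.MP_9c3df6_al.ChainsUnique

open MvPolynomial

universe u v w x

variable (K : Type u) [Field K] {P : Type v} [PartialOrder P] {σ : Type w}

/-- `φ(I) = w_I t`; the variables of the polynomial ring are `some s` (the `x_s`) and `none`
(the variable `t`), and `w_I` is given by its exponent vector. -/
noncomputable def phi (w : LowerSet P → (σ →₀ ℕ)) (I : LowerSet P) : MvPolynomial (Option σ) K :=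
  monomial ((w I).mapDomain some + Finsupp.single none 1) 1

/-- finite multisets of pairwise comparable poset ideals: they index the standard monomials -/
def Multichain (P : Type v) [PartialOrder P] : Type v :=
  {s : Multiset (LowerSet P) // ∀ a ∈ s, ∀ b ∈ s, a ≤ b ∨ b ≤ a}

/-- the standard monomial of a multichain -/
noncomputable def std (w : LowerSet P → (σ →₀ ℕ)) (s : Multichain P) :
    MvPolynomial (Option σ) K :=
  (s.1.map (phi K w)).prod

/-- `K[Ω]` (generated by the `w_I t`) is an algebra with straightening laws on `J(P)` via `φ`: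
`φ` is injective, the standard monomials form a `K`-basis of `K[Ω]`, and in the expansion of
`φ(α)φ(β)`, `α, β` incomparable, the least member of each standard monomial is below `α` and `β`. -/
structure IsASL (w : LowerSet P → (σ →₀ ℕ)) : Prop where
  inj : Function.Injective (phi K w)
  indep : LinearIndependent K (std K w)
  span : Submodule.span K (Set.range (std K w)) =
    Subalgebra.toSubmodule (Algebra.adjoin K (Set.range (phi K w)))
  straight : ∀ α β : LowerSet P, ¬ α ≤ β → ¬ β ≤ α → ∀ r : Multichain P →₀ K,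
    phi K w α * phi K w β = r.sum (fun s c => c • std K w s) →
    ∀ s ∈ r.support, ∃ γ ∈ s.1, (∀ δ ∈ s.1, γ ≤ δ) ∧ γ ≤ α ∧ γ ≤ β

/-- a compatible ASL: every straightening relation reads `φ(I)φ(I') = φ(J)φ(J')` with
`J ⊆ I ∩ I'` and `I ∪ I' ⊆ J'` -/
structure IsCompatibleASL (w : LowerSet P → (σ →₀ ℕ)) : Prop extends IsASL K w where
  compat : ∀ I I' : LowerSet P, ¬ I ≤ I' → ¬ I' ≤ I → ∃ J J' : LowerSet P,
    J ≤ I ⊓ I' ∧ I ⊔ I' ≤ J' ∧ phi K w I * phi K w I' = phi K w J * phi K w J'

/-- the straightening relations coincide: for incomparable `I, I'` the same `J ⊆ J'` satisfy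
`φ(I)φ(I') = φ(J)φ(J')` -/
def SameRelations {τ : Type x} (w : LowerSet P → (σ →₀ ℕ)) (w' : LowerSet P → (τ →₀ ℕ)) : Prop :=
  ∀ I I' : LowerSet P, ¬ I ≤ I' → ¬ I' ≤ I → ∀ J J' : LowerSet P, J ≤ J' →
    (phi K w I * phi K w I' = phi K w J * phi K w J' ↔
      phi K w' I * phi K w' I' = phi K w' J * phi K w' J')

/-- `P` is a disjoint union of chains: being comparable is a transitive relation -/
def DisjointUnionOfChains (P : Type v) [PartialOrder P] : Prop :=
  ∀ a b c : P, (a ≤ b ∨ b ≤ a) → (b ≤ c ∨ c ≤ b) → (a ≤ c ∨ c ≤ a)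

open Classical in
/-- the exponents of `K[O(P)]`, the toric ring of the order polytope: `w_I = ∏_{p ∈ I} x_p` -/
noncomputable def orderW (P : Type v) [PartialOrder P] [Finite P] (I : LowerSet P) : P →₀ ℕ :=
  Finsupp.equivFunOnFinite.symm fun p => if p ∈ I then 1 else 0

/-! ### the proof -/

variable {K}

theorem phi_mul_eq_iff {w : LowerSet P → (σ →₀ ℕ)} {I I' J J' : LowerSet P} :
    phi K w I * phi K w I' = phi K w J * phi K w J' ↔ w I + w I' = w J + w J' := by
  rw [phi, phi, phi, phi, monomial_mul, monomial_mul, mul_one]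
  constructor
  · intro h
    have h1 := monomial_left_injective (one_ne_zero : (1 : K) ≠ 0) h
    ext s
    have h2 := DFunLike.congr_fun h1 (some s)
    simp only [Finsupp.add_apply, Finsupp.mapDomain_apply (Option.some_injective σ)] at h2
    rw [Finsupp.single_eq_of_ne (by simp), add_zero, add_zero, add_zero, add_zero] at h2
    exact h2
  · intro h
    have h2 : (w I).mapDomain some + (w I').mapDomain some
        = (w J).mapDomain some + (w J').mapDomain (some : σ → Option σ) := by
      rw [← Finsupp.mapDomain_add, h, Finsupp.mapDomain_add]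
    have h3 : (w I).mapDomain some + Finsupp.single none 1 +
        ((w I').mapDomain some + Finsupp.single none 1) =
        (w J).mapDomain some + Finsupp.single none 1 +
        ((w J').mapDomain (some : σ → Option σ) + Finsupp.single none 1) := by
      rw [add_add_add_comm, h2, add_add_add_comm]
    rw [h3]

theorem std_inj {w : LowerSet P → (σ →₀ ℕ)} (h : IsASL K w) {s t : Multichain P}
    (hst : std K w s = std K w t) : s = t :=
  h.indep.injective hst

theorem chain3 {a b c : LowerSet P} (hab : a ≤ b) (hbc : b ≤ c) :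
    ∀ x ∈ ({b, a, c} : Multiset (LowerSet P)), ∀ y ∈ ({b, a, c} : Multiset (LowerSet P)),
      x ≤ y ∨ y ≤ x := by
  have hac := hab.trans hbc
  intro x hx y hy
  simp only [Multiset.insert_eq_cons, Multiset.mem_cons, Multiset.mem_singleton] at hx hy
  rcases hx with rfl | rfl | rfl <;> rcases hy with rfl | rfl | rfl <;> tauto

theorem key {w : LowerSet P → (σ →₀ ℕ)} (h : IsCompatibleASL K w) {x y x' J J' : LowerSet P}
    (hxy : ¬ x ≤ y) (hyx : ¬ y ≤ x) (hxy' : ¬ x' ≤ y) (hyx' : ¬ y ≤ x') (hne : x' ≠ x)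
    (hJ : J ≤ x ⊓ y) (hJ' : x ⊔ y ≤ J') (heq : phi K w x * phi K w y = phi K w J * phi K w J')
    (hJx' : J ≤ x') (hx'J' : x' ≤ J') (h1 : x' ⊓ y ≤ x) (h2 : x ≤ x' ⊔ y) : False := by
  obtain ⟨J1, J1', h3, h4, h5⟩ := h.compat x' y hxy' hyx'
  have h6 : std K w ⟨{x', J, J'}, chain3 hJx' hx'J'⟩
      = std K w ⟨{x, J1, J1'}, chain3 (h3.trans h1) (h2.trans h4)⟩ := by
    simp only [std, Multiset.insert_eq_cons, Multiset.map_cons, Multiset.map_singleton,
      Multiset.prod_cons, Multiset.prod_singleton]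
    rw [← heq, ← h5]
    ring
  have h7 := congrArg Subtype.val (std_inj h.toIsASL h6)
  simp only at h7
  have h8 : x ∈ ({x', J, J'} : Multiset (LowerSet P)) := by
    rw [h7]
    simp
  simp only [Multiset.insert_eq_cons, Multiset.mem_cons, Multiset.mem_singleton] at h8
  rcases h8 with h8 | h8 | h8
  · exact hne h8.symm
  · exact hxy (h8 ▸ hJ.trans inf_le_right)
  · exact hyx (h8 ▸ (le_sup_right : y ≤ x ⊔ y).trans hJ')

theorem up [Finite P] (hP : DisjointUnionOfChains P) {w : LowerSet P → (σ →₀ ℕ)}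
    (h : IsCompatibleASL K w) {x y J J' : LowerSet P} (hxy : ¬ x ≤ y) (hyx : ¬ y ≤ x)
    (hJ : J ≤ x ⊓ y) (hJ' : x ⊔ y ≤ J')
    (heq : phi K w x * phi K w y = phi K w J * phi K w J') : J' = x ⊔ y := by
  by_contra hne
  have hlt : ¬ J' ≤ x ⊔ y := fun h' => hne (le_antisymm h' hJ')
  have hS : {p : P | p ∈ J' ∧ p ∉ x ⊔ y}.Nonempty := by
    obtain ⟨p, hp, hp'⟩ := Set.not_subset.1 hlt
    exact ⟨p, hp, hp'⟩
  obtain ⟨p, ⟨hpJ, hpxy⟩, hmin⟩ := wellFounded_lt.has_min _ hS
  rw [LowerSet.mem_sup_iff, not_or] at hpxy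
  have hbelow : ∀ q, q < p → q ∈ x ∨ q ∈ y := by
    intro q hq
    by_contra hcon
    exact hmin q ⟨J'.lower hq.le hpJ, by rwa [LowerSet.mem_sup_iff]⟩ hq
  -- the two symmetric cases
  have main : ∀ a b : LowerSet P, ¬ a ≤ b → ¬ b ≤ a → J ≤ a ⊓ b → a ⊔ b ≤ J' →
      phi K w a * phi K w b = phi K w J * phi K w J' → p ∉ a → p ∉ b →
      (∀ q, q < p → q ∈ a) → False := by
    intro a b hab hba hJab hJab' heq' hpa hpb hq
    have hmem : ∀ q, q ∈ a ⊔ LowerSet.Iic p ↔ q ∈ a ∨ q ≤ p := by
      intro q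
      rw [LowerSet.mem_sup_iff, LowerSet.mem_Iic_iff]
    refine key h (x := a) (y := b) (x' := a ⊔ LowerSet.Iic p) hab hba ?_ ?_ ?_ hJab hJab' heq'
      ?_ ?_ ?_ ?_
    · exact fun h' => hab (le_sup_left.trans h')
    · intro h'
      apply hba
      intro q hqb
      rcases (hmem q).1 (h' hqb) with h1 | h1
      · exact h1
      · rcases h1.lt_or_eq with h1 | h1
        · exact hq q h1
        · exact absurd (h1 ▸ hqb) hpb
    · intro h'
      apply hpa
      rw [← h', hmem]
      exact Or.inr le_rfl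
    · exact (hJab.trans inf_le_left).trans le_sup_left
    · refine sup_le (le_sup_left.trans hJab') ?_
      rw [LowerSet.Iic_le]
      exact hpJ
    · intro q hqm
      obtain ⟨h1, h2⟩ := LowerSet.mem_inf_iff.1 hqm
      rcases (hmem q).1 h1 with h1 | h1
      · exact h1
      · rcases h1.lt_or_eq with h1 | h1
        · exact hq q h1
        · exact absurd (h1 ▸ h2) hpb
    · exact le_sup_left.trans le_sup_left
  by_cases hx : ∀ q, q < p → q ∈ x
  · exact main x y hxy hyx hJ hJ' heq hpxy.1 hpxy.2 hx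
  · push Not at hx
    obtain ⟨q1, hq1, hq1x⟩ := hx
    have hq1y : q1 ∈ y := (hbelow q1 hq1).resolve_left hq1x
    refine main y x hyx hxy (by rwa [inf_comm]) (by rwa [sup_comm]) (by rwa [mul_comm])
      hpxy.2 hpxy.1 ?_
    intro q2 hq2
    by_contra hq2y
    have hq2x : q2 ∈ x := (hbelow q2 hq2).resolve_right hq2y
    rcases hP q1 p q2 (Or.inl hq1.le) (Or.inr hq2.le) with h1 | h1
    · exact hq1x (x.lower h1 hq2x)
    · exact hq2y (y.lower h1 hq1y)

/-- remove from `x` everything above `p` -/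
def cut (x : LowerSet P) (p : P) : LowerSet P where
  carrier := {q | q ∈ x ∧ ¬ p ≤ q}
  lower' := fun _ _ hba ha => ⟨x.lower hba ha.1, fun h => ha.2 (h.trans hba)⟩

theorem mem_cut {x : LowerSet P} {p q : P} : q ∈ cut x p ↔ q ∈ x ∧ ¬ p ≤ q := Iff.rfl

theorem down [Finite P] (hP : DisjointUnionOfChains P) {w : LowerSet P → (σ →₀ ℕ)}
    (h : IsCompatibleASL K w) {x y J J' : LowerSet P} (hxy : ¬ x ≤ y) (hyx : ¬ y ≤ x)
    (hJ : J ≤ x ⊓ y) (hJ' : x ⊔ y ≤ J')
    (heq : phi K w x * phi K w y = phi K w J * phi K w J') : J = x ⊓ y := by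
  by_contra hne
  have hlt : ¬ x ⊓ y ≤ J := fun h' => hne (le_antisymm hJ h')
  have hS : {p : P | p ∈ x ⊓ y ∧ p ∉ J}.Nonempty := by
    obtain ⟨p, hp, hp'⟩ := Set.not_subset.1 hlt
    exact ⟨p, hp, hp'⟩
  obtain ⟨p, ⟨hpxy, hpJ⟩, hmax⟩ := wellFounded_gt.has_min _ hS
  rw [LowerSet.mem_inf_iff] at hpxy
  have habove : ∀ q, p < q → q ∈ x → q ∈ y → False := by
    intro q hq h1 h2
    exact hmax q ⟨LowerSet.mem_inf_iff.2 ⟨h1, h2⟩, fun h3 => hpJ (J.lower hq.le h3)⟩ hq
  have main : ∀ a b : LowerSet P, ¬ a ≤ b → ¬ b ≤ a → J ≤ a ⊓ b → a ⊔ b ≤ J' →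
      phi K w a * phi K w b = phi K w J * phi K w J' → p ∈ a → p ∈ b →
      (∀ q, p < q → q ∉ a) → False := by
    intro a b hab hba hJab hJab' heq' hpa hpb hq
    refine key h (x := a) (y := b) (x' := cut a p) hab hba ?_ ?_ ?_ hJab hJab' heq' ?_ ?_ ?_ ?_
    · intro h'
      apply hab
      intro q hqa
      by_cases hpq : p ≤ q
      · rcases hpq.lt_or_eq with h1 | h1
        · exact absurd hqa (hq q h1)
        · exact h1 ▸ hpb
      · exact h' (mem_cut.2 ⟨hqa, hpq⟩)
    · intro h'
      exact hba fun q hqb => (mem_cut.1 (h' hqb)).1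
    · intro h'
      have : p ∈ cut a p := by rw [h']; exact hpa
      exact this.2 le_rfl
    · intro q hqJ
      exact mem_cut.2 ⟨(hJab.trans inf_le_left) hqJ, fun h1 => hpJ (J.lower h1 hqJ)⟩
    · intro q hqc
      exact hJab' (LowerSet.mem_sup_iff.2 (Or.inl (mem_cut.1 hqc).1))
    · intro q hqm
      exact (mem_cut.1 (LowerSet.mem_inf_iff.1 hqm).1).1
    · intro q hqa
      rw [SetLike.mem_coe, LowerSet.mem_sup_iff]
      by_cases hpq : p ≤ q
      · rcases hpq.lt_or_eq with h1 | h1
        · exact absurd hqa (hq q h1)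
        · exact Or.inr (h1 ▸ hpb)
      · exact Or.inl (mem_cut.2 ⟨hqa, hpq⟩)
  by_cases hx : ∀ q, p < q → q ∉ x
  · exact main x y hxy hyx hJ hJ' heq hpxy.1 hpxy.2 hx
  · push Not at hx
    obtain ⟨q1, hq1, hq1x⟩ := hx
    refine main y x hyx hxy (by rwa [inf_comm]) (by rwa [sup_comm]) (by rwa [mul_comm])
      hpxy.2 hpxy.1 ?_
    intro q2 hq2 hq2y
    rcases hP q1 p q2 (Or.inr hq1.le) (Or.inl hq2.le) with h1 | h1
    · exact habove q1 hq1 hq1x (y.lower h1 hq2y)
    · exact habove q2 hq2 (x.lower h1 hq1x) hq2y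

/-- the straightening relations are the ones of Hibi -/
theorem hibi [Finite P] (hP : DisjointUnionOfChains P) {w : LowerSet P → (σ →₀ ℕ)}
    (h : IsCompatibleASL K w) {x y : LowerSet P} (hxy : ¬ x ≤ y) (hyx : ¬ y ≤ x) :
    phi K w x * phi K w y = phi K w (x ⊓ y) * phi K w (x ⊔ y) := by
  obtain ⟨J, J', h1, h2, h3⟩ := h.compat x y hxy hyx
  rw [h3, up hP h hxy hyx h1 h2 h3, down hP h hxy hyx h1 h2 h3]

theorem chain2 {a b : LowerSet P} (hab : a ≤ b) :
    ∀ x ∈ ({a, b} : Multiset (LowerSet P)), ∀ y ∈ ({a, b} : Multiset (LowerSet P)),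
      x ≤ y ∨ y ≤ x := by
  intro x hx y hy
  simp only [Multiset.insert_eq_cons, Multiset.mem_cons, Multiset.mem_singleton] at hx hy
  rcases hx with rfl | rfl <;> rcases hy with rfl | rfl <;> tauto

/-- two-element multichains with the same product -/
theorem pair_unique {w : LowerSet P → (σ →₀ ℕ)} (h : IsCompatibleASL K w) {a b c d : LowerSet P}
    (hab : a ≤ b) (hcd : c ≤ d)
    (heq : phi K w a * phi K w b = phi K w c * phi K w d) : a = c ∧ b = d := by
  have h1 : std K w ⟨{a, b}, chain2 hab⟩ = std K w ⟨{c, d}, chain2 hcd⟩ := by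
    simp only [std, Multiset.insert_eq_cons, Multiset.map_cons, Multiset.map_singleton,
      Multiset.prod_cons, Multiset.prod_singleton]
    exact heq
  have h2 := congrArg Subtype.val (std_inj h.toIsASL h1)
  simp only at h2
  have ha : a ∈ ({c, d} : Multiset (LowerSet P)) := by rw [← h2]; simp
  have hb : b ∈ ({c, d} : Multiset (LowerSet P)) := by rw [← h2]; simp
  have hc : c ∈ ({a, b} : Multiset (LowerSet P)) := by rw [h2]; simp
  have hd : d ∈ ({a, b} : Multiset (LowerSet P)) := by rw [h2]; simp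
  simp only [Multiset.insert_eq_cons, Multiset.mem_cons, Multiset.mem_singleton] at ha hb hc hd
  constructor
  · rcases ha with ha | ha
    · exact ha
    · rcases hc with hc | hc
      · exact hc.symm
      · exact le_antisymm (hab.trans hc.ge) (hcd.trans ha.ge)
  · rcases hb with hb | hb
    · rcases hd with hd | hd
      · exact le_antisymm (hb.le.trans hcd) (hd.le.trans hab)
      · exact hd.symm
    · exact hb

theorem order_iff [Finite P] {I I' J J' : LowerSet P} (hJ : J ≤ J') :
    orderW P I + orderW P I' = orderW P J + orderW P J' ↔ J = I ⊓ I' ∧ J' = I ⊔ I' := by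
  classical
  have key : ∀ p, (orderW P I + orderW P I') p = (orderW P J + orderW P J') p ↔
      ((p ∈ J ↔ p ∈ I ∧ p ∈ I') ∧ (p ∈ J' ↔ p ∈ I ∨ p ∈ I')) := by
    intro p
    simp only [orderW, Finsupp.add_apply, Finsupp.equivFunOnFinite_symm_apply_apply]
    have h1 : p ∈ J → p ∈ J' := fun h => hJ h
    by_cases h2 : p ∈ I <;> by_cases h3 : p ∈ I' <;> by_cases h4 : p ∈ J <;>
      by_cases h5 : p ∈ J' <;> simp [h2, h3, h4, h5] <;> exact absurd (h1 h4) h5
  constructor
  · intro h
    constructor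
    · ext p
      have := ((key p).1 (by rw [h])).1
      simpa using this
    · ext p
      have := ((key p).1 (by rw [h])).2
      simpa using this
  · rintro ⟨rfl, rfl⟩
    ext p
    rw [key p]
    simp

/-- **MP_9c3df6_al, Q1.** If the finite poset `P` is a disjoint union of chains, then every
compatible ASL on `J(P)` over `K` (generated by monomials `w_I t`) has the straightening relations
of `K[O(P)]`, that is `φ(I)φ(I') = φ(I ∩ I')φ(I ∪ I')`. -/
theorem result (K : Type u) [Field K] (P : Type v) [PartialOrder P] [Finite P]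
    (hP : DisjointUnionOfChains P) (n : ℕ) (w : LowerSet P → (Fin n →₀ ℕ))
    (h : IsCompatibleASL K w) :
    SameRelations K w (orderW P) ∧
      ∀ I I' : LowerSet P, ¬ I ≤ I' → ¬ I' ≤ I →
        phi K w I * phi K w I' = phi K w (I ⊓ I') * phi K w (I ⊔ I') := by
  refine ⟨?_, fun I I' h1 h2 => hibi hP h h1 h2⟩
  intro I I' h1 h2 J J' hJ
  rw [phi_mul_eq_iff (w := orderW P), order_iff hJ]
  constructor
  · intro h3
    rw [hibi hP h h1 h2] at h3
    obtain ⟨h4, h5⟩ := pair_unique h (inf_le_left.trans le_sup_left) hJ h3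
    exact ⟨h4.symm, h5.symm⟩
  · rintro ⟨rfl, rfl⟩
    exact hibi hP h h1 h2

end Pool.Agent.Results.MP_9c3df6_al.ChainsUnique
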